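import Pool.Agent.TH943.PT.Ord
import Pool.Agent.TH943.CY.Tw

/-!
Extension of the finite field of constants: inert primes stay inert.
-/

set_option autoImplicit false
set_option maxHeartbeats 1000000

open Polynomial

namespace Pool.Agent.X231.BT

open Pool.Agent.W313.Hyp Pool.Agent.W343.BSD Pool.Agent.TH943.HJ

section ext

variable {k k' : Type} [Field k] [Finite k] [Field k'] [Finite k'] [Algebra k k']

omit [Finite k] in
theorem card_ext : Nat.card k' = Nat.card k ^ Module.finrank k k' := by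
  have : Module.Finite k k' := Module.Finite.of_finite
  exact Module.natCard_eq_pow_finrank

theorem deg_dvd {P : k[X]} (hP : Irreducible P) {Q : k'[X]} (hQ : Irreducible Q)
    (hd : Q ∣ P.map (algebraMap k k')) : Q.natDegree ∣ P.natDegree := by
  have h1 := (hP.natDegree_dvd_iff_dvd_X_pow_card_pow_sub_X (n := P.natDegree)).1 dvd_rfl
  have h2 := hd.trans (Polynomial.map_dvd (algebraMap k k') h1)
  rw [Polynomial.map_sub, Polynomial.map_pow, Polynomial.map_X] at h2
  apply hQ.natDegree_dvd_of_dvd_X_pow_card_pow_sub_X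
  rw [card_ext (k := k) (k' := k'), ← pow_mul]
  exact h2.trans (dvd_pow_pow_sub_self_of_dvd (dvd_mul_left _ _))

theorem dvd_mul_deg {P : k[X]} (hP : Irreducible P) {Q : k'[X]} (hQ : Irreducible Q)
    (hd : Q ∣ P.map (algebraMap k k')) :
    P.natDegree ∣ Module.finrank k k' * Q.natDegree := by
  rw [hP.natDegree_dvd_iff_dvd_X_pow_card_pow_sub_X]
  by_contra hn
  have h1 : IsCoprime P (X ^ Nat.card k ^ (Module.finrank k k' * Q.natDegree) - X) :=
    (Irreducible.coprime_iff_not_dvd hP).2 hn
  have h2 : IsCoprime (P.map (algebraMap k k'))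
      ((X ^ Nat.card k ^ (Module.finrank k k' * Q.natDegree) - X : k[X]).map
        (algebraMap k k')) := by
    have := h1.map (mapRingHom (algebraMap k k'))
    exact this
  rw [Polynomial.map_sub, Polynomial.map_pow, Polynomial.map_X] at h2
  have h3 := (hQ.natDegree_dvd_iff_dvd_X_pow_card_pow_sub_X (n := Q.natDegree)).1 dvd_rfl
  rw [card_ext (k := k) (k' := k'), ← pow_mul] at h3
  exact hQ.not_isUnit (h2.isUnit_of_dvd' hd h3)

/-- inert primes stay inert in extensions of degree prime to `deg f` -/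
theorem inert_ext {f P : k[X]} (hf : f.Monic) (hf0 : 0 < f.natDegree) (hP : Irreducible P)
    (hr : Nat.Coprime f.natDegree (Module.finrank k k'))
    (hPf : Irreducible (P.comp f)) {Q : k'[X]} (hQm : Q.Monic) (hQ : Irreducible Q)
    (hd : Q ∣ P.map (algebraMap k k')) :
    Irreducible (Q.comp (f.map (algebraMap k k'))) := by
  set f' := f.map (algebraMap k k') with hf'
  have hf'm : f'.Monic := hf.map _
  have hf'd : f'.natDegree = f.natDegree := hf.natDegree_map _
  have hf'0 : 0 < f'.natDegree := by rw [hf'd]; exact hf0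
  have hcm : (Q.comp f').Monic := hQm.comp hf'm hf'0.ne'
  have hcd : (Q.comp f').natDegree = Q.natDegree * f.natDegree := by
    rw [natDegree_comp, hf'd]
  have hQ0 : 0 < Q.natDegree := natDegree_pos_iff_degree_pos.2 (degree_pos_of_irreducible hQ)
  have hnu : ¬ IsUnit (Q.comp f') := by
    intro h
    have h1 := natDegree_eq_zero_of_isUnit h
    rw [hcd] at h1
    rcases Nat.mul_eq_zero.1 h1 with h2 | h2 <;> omega
  obtain ⟨R, hRm, hR, hRd⟩ := exists_monic_irreducible_factor (Q.comp f') hnu
  obtain ⟨c, hc0, hRdeg⟩ : ∃ c : ℕ, 0 < c ∧ R.natDegree = Q.natDegree * c := by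
    obtain ⟨QQ, hQQ⟩ : ∃ QQ : MI k', QQ.1 = Q := ⟨⟨Q, hQm, hQ⟩, rfl⟩
    rw [← hQQ] at hRd
    obtain ⟨Q1, hQ1, hR1⟩ := down_surj (P := QQ) ⟨R, hRm, hR⟩ hRd
    refine ⟨Q1.1.natDegree, MI.deg_pos Q1, ?_⟩
    have h9 := down_deg Q1 hQ1
    rw [hR1] at h9
    have h10 : QQ.1.natDegree = Q.natDegree := congrArg natDegree hQQ
    rw [← h10]
    exact h9
  -- the degree of R over k
  have hRPf : R ∣ (P.comp f).map (algebraMap k k') := by
    rw [Polynomial.map_comp]
    refine hRd.trans ?_
    obtain ⟨u, hu⟩ := hd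
    rw [hu, mul_comp]
    exact dvd_mul_right _ _
  have h1 := dvd_mul_deg hPf hR hRPf
  rw [natDegree_comp] at h1
  obtain ⟨u, hu⟩ := deg_dvd hP hQ hd
  rw [hRdeg, hu] at h1
  have h2 : f.natDegree ∣ Module.finrank k k' * c := by
    have h3 : Q.natDegree * (u * f.natDegree) ∣
        Q.natDegree * (Module.finrank k k' * c) := by
      calc Q.natDegree * (u * f.natDegree) = Q.natDegree * u * f.natDegree := by ring
        _ ∣ _ := h1
        _ = _ := by ring
    have h4 := Nat.dvd_of_mul_dvd_mul_left hQ0 h3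
    exact (dvd_mul_left _ _).trans h4
  have h5 : f.natDegree ∣ c := hr.dvd_of_dvd_mul_left h2
  have h6 : f.natDegree ≤ c := Nat.le_of_dvd hc0 h5
  have h7 : R = Q.comp f' := by
    refine (eq_of_monic_of_dvd_of_natDegree_le hRm hcm hRd ?_).symm
    rw [hcd, hRdeg]
    exact Nat.mul_le_mul_left _ h6
  rw [← h7]
  exact hR

open Classical in
/-- all prime factors stay inert -/
theorem inert_all {f D : k[X]} (hf : f.Monic) (hf0 : 0 < f.natDegree) (hD : D ≠ 0)
    (hr : Nat.Coprime f.natDegree (Module.finrank k k'))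
    (h : ∀ P ∈ primes D, Irreducible (P.comp f)) :
    ∀ Q ∈ primes (D.map (algebraMap k k')), Irreducible (Q.comp (f.map (algebraMap k k'))) := by
  intro Q hQ
  have hD' : D.map (algebraMap k k') ≠ 0 := (Polynomial.map_ne_zero_iff (algebraMap k k').injective).2 hD
  obtain ⟨hQm, hQi, hQd⟩ := (mem_primes hD' Q).1 hQ
  have := fact_iff.2 hQi
  have hfin : Module.Finite k k' := Module.Finite.of_finite
  have hfd : FiniteDimensional k' (AdjoinRoot Q) := fd1 (⟨Q, hQm, hQi⟩ : MI k')
  have hfd2 : FiniteDimensional k (AdjoinRoot Q) := FiniteDimensional.trans k k' _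
  set β : AdjoinRoot Q := AdjoinRoot.root Q with hβ
  have hint : IsIntegral k β := Algebra.IsIntegral.isIntegral _
  have hev : ∀ g : k[X], Q ∣ g.map (algebraMap k k') ↔ aeval β g = 0 := by
    intro g
    rw [← AdjoinRoot.mk_eq_zero, ← aeval_map_algebraMap (A := k') (B := AdjoinRoot Q),
      AdjoinRoot.aeval_eq]
  have hP : minpoly k β ∈ primes D := by
    refine (mem_primes hD _).2 ⟨minpoly.monic hint, minpoly.irreducible hint, ?_⟩
    exact minpoly.dvd k β ((hev D).1 hQd)
  have hQP : Q ∣ (minpoly k β).map (algebraMap k k') := (hev _).2 (minpoly.aeval k β)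
  exact inert_ext hf hf0 (minpoly.irreducible hint) hr (h _ hP) hQm hQi hQP

end ext

end Pool.Agent.X231.BT
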